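import Pool.Agent.H20.RCC.Stmts

set_option autoImplicit false

namespace Pool.RCC

namespace GCaux

theorem wd_mem (c : ℕ → ℕ) (x : ℕ) (hx : x ∈ wd c) : 1 ≤ x ∧ x ≤ 9 := by
  simp only [wd, List.mem_append, List.mem_replicate] at hx
  omega

theorem digits_W (c : ℕ → ℕ) : Nat.digits 10 (W c) = wd c := by
  unfold W
  apply Nat.digits_ofDigits 10 (by norm_num)
  · intro l hl
    have := wd_mem c l hl
    omega
  · intro h
    have := wd_mem c _ (List.getLast_mem h)
    omega

theorem nz_W (c : ℕ → ℕ) :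
    nz (W c) = c 9 + c 8 + c 7 + c 6 + c 5 + c 4 + c 3 + c 2 := by
  unfold nz
  rw [digits_W]
  simp [wd, List.filter_append, List.filter_replicate]
  omega

theorem count_le (l : List ℕ) : l.count 9 + l.count 8 + l.count 7 + l.count 6 + l.count 5 +
    l.count 4 + l.count 3 + l.count 2 ≤ l.length := by
  induction l with
  | nil => simp
  | cons a l ih =>
    simp only [List.count_cons, List.length_cons, beq_iff_eq]
    split_ifs <;> omega

end GCaux

theorem GC_thm (hNXT : NXTStmt) (hHLP : HLPStmt) (hZNP : ZNPStmt) (hAR : ARStmt) : GCStmt := by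
  intro v hOK hcR p q hp hq
  obtain ⟨_, _, _, _, _, hl⟩ := hHLP 4 v hOK (by norm_num)
  have hZ : (Z 4 v).length = max (Hi 4 v).length (Lw 4 v).length :=
    (hZNP 4 (Hi 4 v) (Lw 4 v)).1
  unfold Mv at hp hq
  have e := hNXT 4 1 (p + (Lw 4 v).length - (Z 4 v).length)
    ((Hi 4 v).length + q - (Lw 4 v).length - p) p q v hOK (by norm_num) le_rfl
    (by omega) (by omega) (by omega) (by intro _; constructor <;> omega)
  have k1 : c1 4 (cR 4 v) = 1 := by rw [hcR]; rfl
  have k2 : c2 4 1 (cR 4 v) = 1 := by unfold c2; rw [k1]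
  have k3 : c3 4 1 (cR 4 v) = 1 := by unfold c3; rw [k2]
  rw [e, GCaux.nz_W, k1, k2, k3]
  have hc := GCaux.count_le (outs 4 1 v)
  have hlen : (outs 4 1 v).length = 2 * (Z 4 v).length + 4 := by
    unfold outs
    simp only [List.length_append, hAR.2.1, List.length_reverse, List.length_cons, List.length_nil]
    omega
  unfold Mv
  norm_num
  omega

end Pool.RCC
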