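import Pool.Agent.H20.RCC.Stmts

set_option autoImplicit false

namespace Pool.RCC

namespace NXTaux

theorem zero_carry_le (k δ c : ℕ) (hk : k ≤ 8) (hδ : δ ≤ 1) (hc : c ≤ 1) :
    c1 k c ≤ 1 ∧ c2 k δ c ≤ 1 ∧ c3 k δ c ≤ 1 := by
  have h1 : c1 k c ≤ 1 := by unfold c1; omega
  have h2 : c2 k δ c ≤ 1 := by unfold c2; omega
  have h3 : c3 k δ c ≤ 1 := by unfold c3; omega
  exact ⟨h1, h2, h3⟩

theorem sums (hDEC : DECStmt) (hZNP : ZNPStmt) (hZIP : ZIPStmt) (hMID : MIDStmt)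
    (k δ u w p q : ℕ) (v : ℕ → ℕ) (hOK : OK k v) (hk : 1 ≤ k) (hδ : δ ≤ 1)
    (h0 : δ = 0 → (Hi k v).length + q = (Z k v).length + u ∧
      (Lw k v).length + p = (Hi k v).length + q + w)
    (h1 : δ = 1 → (Lw k v).length + p = (Z k v).length + u ∧
      (Hi k v).length + q = (Lw k v).length + p + w) :
    List.zipWith (· + ·) (wd (cv k p q v)) (wd (cv k p q v)).reverse =
      Z k v ++ ((List.replicate u (2 * k + 1) ++ (List.replicate w (2 * k + 2 * δ) ++
        List.replicate u (2 * k + 1))) ++ (Z k v).reverse) := by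
  have hd := (hDEC k p q v hOK).1 hk
  have hlen := (hZNP k (Hi k v) (Lw k v)).1
  have hZ : (Z k v).length = max (Hi k v).length (Lw k v).length := hlen
  rcases (by omega : δ = 0 ∨ δ = 1) with rfl | rfl
  · obtain ⟨ha, hb⟩ := h0 rfl
    have hq : q = u + ((Lw k v).length - (Hi k v).length) := by omega
    have hp : p = (u + w) + ((Hi k v).length - (Lw k v).length) := by omega
    have hx : wd (cv k p q v) = Hi k v ++
        (List.replicate (u + ((Lw k v).length - (Hi k v).length)) (k + 1) ++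
        (List.replicate ((u + w) + ((Hi k v).length - (Lw k v).length)) k ++
          (Lw k v).reverse)) := by
      rw [hd, ← hq, ← hp]
    rw [hZIP k (Hi k v) (Lw k v) _ (u + w) u hx, (hMID k u w).1]
    simp [Z]
  · obtain ⟨ha, hb⟩ := h1 rfl
    have hq : q = (u + w) + ((Lw k v).length - (Hi k v).length) := by omega
    have hp : p = u + ((Hi k v).length - (Lw k v).length) := by omega
    have hx : wd (cv k p q v) = Hi k v ++
        (List.replicate ((u + w) + ((Lw k v).length - (Hi k v).length)) (k + 1) ++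
        (List.replicate (u + ((Hi k v).length - (Lw k v).length)) k ++
          (Lw k v).reverse)) := by
      rw [hd, ← hq, ← hp]
    rw [hZIP k (Hi k v) (Lw k v) _ u (u + w) hx, (hMID k u w).2]
    simp [Z]

end NXTaux

theorem NXT_thm (hTW : TWStmt) (hAR : ARStmt) (hDEC : DECStmt) (hHLP : HLPStmt)
    (hZNP : ZNPStmt) (hZIP : ZIPStmt) (hMID : MIDStmt) : NXTStmt := by
  intro k δ u w p q v hOK hk hδ hu hw h0 h1
  have hk8 : k ≤ 8 := hOK.1
  have hs := NXTaux.sums hDEC hZNP hZIP hMID k δ u w p q v hOK hk hδ h0 h1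
  rw [hTW _ _ hs]
  obtain ⟨hApp, hLen, hRep, hCo⟩ := hAR
  obtain ⟨_, _, hHi, hLw, _, _⟩ := hHLP k v hOK hk
  have hZ18 : ∀ s ∈ Z k v, s ≤ 18 := by
    intro s hs
    have := (hZNP k (Hi k v) (Lw k v)).2 hk8 (fun h hh => (hHi h hh).2)
      (fun l hl => (hLw l hl).2) s hs
    omega
  have hcR : cR k v ≤ 1 := hCo 0 (Z k v) (by omega) hZ18
  obtain ⟨hc1, hc2, hc3⟩ := NXTaux.zero_carry_le k δ (cR k v) hk8 hδ hcR
  obtain ⟨u', rfl⟩ : ∃ u', u = u' + 1 := ⟨u - 1, by omega⟩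
  obtain ⟨w', rfl⟩ : ∃ w', w = w' + 1 := ⟨w - 1, by omega⟩
  have e1 := hRep (cR k v) u' (2 * k + 1) hcR (by omega)
  have e2 := hRep (c1 k (cR k v)) w' (2 * k + 2 * δ) hc1 (by omega)
  have e3 := hRep (c2 k δ (cR k v)) u' (2 * k + 1) hc2 (by omega)
  have f1 : (2 * k + 1 + cR k v) / 10 = c1 k (cR k v) := rfl
  have f2 : (2 * k + 2 * δ + c1 k (cR k v)) / 10 = c2 k δ (cR k v) := rfl
  have f3 : (2 * k + 1 + c2 k δ (cR k v)) / 10 = c3 k δ (cR k v) := rfl
  rw [f1] at e1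
  rw [f2] at e2
  rw [f3] at e3
  have g0 : co 0 (Z k v) = cR k v := rfl
  congr 1
  funext d
  rw [(hApp 0 (Z k v) _).1, (hApp 0 (Z k v) _).2, g0,
    List.append_assoc (List.replicate (u' + 1) (2 * k + 1)),
    List.append_assoc (List.replicate (w' + 1) (2 * k + 2 * δ)),
    (hApp (cR k v) (List.replicate (u' + 1) (2 * k + 1)) _).1,
    (hApp (cR k v) (List.replicate (u' + 1) (2 * k + 1)) _).2, e1.1, e1.2,
    (hApp (c1 k (cR k v)) (List.replicate (w' + 1) (2 * k + 2 * δ)) _).1,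
    (hApp (c1 k (cR k v)) (List.replicate (w' + 1) (2 * k + 2 * δ)) _).2, e2.1, e2.2,
    (hApp (c2 k δ (cR k v)) (List.replicate (u' + 1) (2 * k + 1)) _).1,
    (hApp (c2 k δ (cR k v)) (List.replicate (u' + 1) (2 * k + 1)) _).2, e3.1, e3.2]
  unfold outs
  simp only [List.count_append, List.count_cons, List.count_replicate, List.count_nil,
    Nat.add_sub_cancel, beq_iff_eq]
  have i1 : ∀ x y : ℕ, (d = x) = (x = d) := fun x _ => propext ⟨Eq.symm, Eq.symm⟩
  simp only [i1 ((2 * k + 1 + c1 k (cR k v)) % 10) 0,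
    i1 ((2 * k + 2 * δ + c2 k δ (cR k v)) % 10) 0, i1 ((2 * k + 1 + c3 k δ (cR k v)) % 10) 0]
  omega

end Pool.RCC
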